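import Mathlib
import Pool.Agent.H28.FourFn

set_option autoImplicit false

open MeasureTheory Set
open scoped ENNReal

namespace Pool.Agent.Results.MP_58c014_an.Laguerre

/-- The weight `P`. -/
noncomputable def P (n : ℕ) (x : Fin n → ℝ) : ℝ :=
  Real.exp (-∑ j, x j) * ∏ k, ∏ j ∈ Finset.Ioi k, (x j - x k) ^ 2

/-- The integral `F`. -/
noncomputable def F (n : ℕ) (t : ℝ) : ℝ :=
  ∫ x in Set.Ici (0 : Fin n → ℝ), P n x * ∏ j, (x j + t) ^ (-(1 / 2) : ℝ)

/-- The integral `G`. -/
noncomputable def G (n : ℕ) (t : ℝ) : ℝ :=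
  ∫ x in Set.Ici (0 : Fin n → ℝ), P n x * ∏ j, (x j + t) ^ (1 / 2 : ℝ)

/-- The double integral `H`. -/
noncomputable def H (n : ℕ) (t : ℝ) : ℝ :=
  ∫ x in Set.Ici (0 : Fin n → ℝ), ∫ y in Set.Ici (0 : Fin n → ℝ),
    P n x * P n y * (∑ j, (1 / (x j + t) - 1 / (y j + t))) *
      ∏ j, ((x j + t) / (y j + t)) ^ (1 / 2 : ℝ)

/-- open orthant -/
def O (n : ℕ) : Set (Fin n → ℝ) := Set.pi Set.univ (fun _ => Set.Ioi 0)

theorem mem_O {n : ℕ} {x : Fin n → ℝ} : x ∈ O n ↔ ∀ j, 0 < x j := by simp [O]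

theorem O_open (n : ℕ) : IsOpen (O n) := isOpen_set_pi finite_univ (fun _ _ => isOpen_Ioi)

theorem O_ae (n : ℕ) : (volume : Measure (Fin n → ℝ)).restrict (Set.Ici 0) = volume.restrict (O n) :=
  Measure.restrict_congr_set (Measure.univ_pi_Ioi_ae_eq_Ici (μ := fun _ => volume)).symm

theorem P_nonneg (n : ℕ) (x : Fin n → ℝ) : 0 ≤ P n x := by unfold P; positivity

theorem P_cont (n : ℕ) : Continuous (P n) := by unfold P; fun_prop

theorem P_det (n : ℕ) (x : Fin n → ℝ) :
    P n x = Real.exp (-∑ j, x j) * (Matrix.vandermonde x).det ^ 2 := by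
  rw [Matrix.det_vandermonde, P]
  simp only [Finset.prod_pow]

theorem P_perm (n : ℕ) (x : Fin n → ℝ) (σ : Equiv.Perm (Fin n)) : P n (x ∘ σ) = P n x := by
  rw [P_det, P_det]
  have : Matrix.vandermonde (x ∘ σ) = (Matrix.vandermonde x).submatrix σ id := by
    ext i j; simp
  rw [this, Matrix.det_permute, mul_pow]
  have h1 : ((Equiv.Perm.sign σ : ℤ) : ℝ) ^ 2 = 1 := by
    rcases Int.units_eq_one_or (Equiv.Perm.sign σ) with h | h <;> simp [h]
  have h2 : ∑ j, (x ∘ σ) j = ∑ j, x j := Equiv.sum_comp σ x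
  rw [h2, h1, one_mul]

theorem P_ne_iff (n : ℕ) (x : Fin n → ℝ) : P n x ≠ 0 ↔ Function.Injective x := by
  rw [P_det, ← Matrix.det_vandermonde_ne_zero_iff]
  simp [Real.exp_ne_zero]

theorem P_mtp (n : ℕ) (x y : Fin n → ℝ) (hx : StrictMono x) (hy : StrictMono y) :
    P n x * P n y ≤ P n (x ⊔ y) * P n (x ⊓ y) := by
  unfold P
  have e1 : Real.exp (-∑ j, x j) * Real.exp (-∑ j, y j)
      = Real.exp (-∑ j, (x ⊔ y) j) * Real.exp (-∑ j, (x ⊓ y) j) := by
    rw [← Real.exp_add, ← Real.exp_add, ← neg_add, ← neg_add, ← Finset.sum_add_distrib,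
      ← Finset.sum_add_distrib]
    congr 2
    exact Finset.sum_congr rfl (fun j _ => by simp only [Pi.sup_apply, Pi.inf_apply, max_add_min])
  rw [mul_mul_mul_comm, e1, mul_mul_mul_comm (Real.exp _) _ (Real.exp _), ← Finset.prod_mul_distrib,
    ← Finset.prod_mul_distrib]
  refine mul_le_mul_of_nonneg_left (Finset.prod_le_prod (fun k _ => by positivity) (fun k _ => ?_))
    (by positivity)
  rw [← Finset.prod_mul_distrib, ← Finset.prod_mul_distrib]
  refine Finset.prod_le_prod (fun j _ => by positivity) (fun j hj => ?_)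
  have h1 := hx (Finset.mem_Ioi.1 hj)
  have h2 := hy (Finset.mem_Ioi.1 hj)
  rw [← mul_pow, ← mul_pow]
  apply pow_le_pow_left₀ (by nlinarith)
  simp only [Pi.sup_apply, Pi.inf_apply]
  rcases le_total (x j) (y j) with p | p <;> rcases le_total (x k) (y k) with q | q <;>
    simp only [max_eq_left, max_eq_right, min_eq_left, min_eq_right, p, q] <;> nlinarith

theorem perm_mp (n : ℕ) (σ : Equiv.Perm (Fin n)) :
    MeasurePreserving (fun x : Fin n → ℝ => x ∘ σ) volume volume :=
  (volume_measurePreserving_piCongrLeft (fun _ : Fin n => ℝ) σ).symm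

/-- the chamber -/
def C (n : ℕ) : Set (Fin n → ℝ) := O n ∩ {x | StrictMono x}

theorem C_meas (n : ℕ) : MeasurableSet (C n) := by
  refine (O_open n).measurableSet.inter ?_
  simp only [StrictMono, setOf_forall]
  exact MeasurableSet.iInter (fun a => MeasurableSet.iInter (fun b => MeasurableSet.iInter
    (fun _ => measurableSet_lt (measurable_pi_apply a) (measurable_pi_apply b))))

theorem sym (n : ℕ) (φ : (Fin n → ℝ) → ℝ) (hm : Measurable φ)
    (hs : ∀ x (σ : Equiv.Perm (Fin n)), φ (x ∘ σ) = φ x) :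
    ∫⁻ x in O n, ENNReal.ofReal (P n x * φ x)
      = (Fintype.card (Equiv.Perm (Fin n)) : ℝ≥0∞) *
        ∫⁻ x, (C n).indicator (fun x => ENNReal.ofReal (P n x * φ x)) x := by
  classical
  have hf : Measurable ((C n).indicator (fun x => ENNReal.ofReal (P n x * φ x))) :=
    (((P_cont n).measurable.mul hm).ennreal_ofReal).indicator (C_meas n)
  have h1 : ∀ x, (O n).indicator (fun x => ENNReal.ofReal (P n x * φ x)) x
      = ∑ σ : Equiv.Perm (Fin n), (C n).indicator (fun x => ENNReal.ofReal (P n x * φ x)) (x ∘ σ) := by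
    intro x
    by_cases hx : x ∈ O n
    swap
    · rw [indicator_of_notMem hx]
      refine (Finset.sum_eq_zero (fun σ _ => indicator_of_notMem (fun h => hx ?_) _)).symm
      rw [mem_O]
      intro j
      simpa using mem_O.1 h.1 (σ.symm j)
    rw [indicator_of_mem hx]
    by_cases hi : Function.Injective x
    · rw [Finset.sum_eq_single (Tuple.sort x)]
      · rw [indicator_of_mem, P_perm, hs]
        exact ⟨mem_O.2 (fun j => mem_O.1 hx _),
          (Tuple.monotone_sort x).strictMono_of_injective (hi.comp (Tuple.sort x).injective)⟩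
      · intro σ _ hσ
        refine indicator_of_notMem (fun h => hσ ?_) _
        have := Tuple.unique_monotone (StrictMono.monotone h.2) (Tuple.monotone_sort x)
        ext j
        rw [hi (congrFun this j)]
      · simp
    · have h0 : P n x = 0 := by by_contra h; exact hi ((P_ne_iff n x).1 h)
      rw [h0, zero_mul, ENNReal.ofReal_zero]
      refine (Finset.sum_eq_zero (fun σ _ => indicator_of_notMem (fun h => hi ?_) _)).symm
      exact (StrictMono.injective h.2).of_comp_right σ.surjective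
  rw [← lintegral_indicator (O_open n).measurableSet]
  simp only [h1]
  rw [lintegral_finset_sum (f := fun (σ : Equiv.Perm (Fin n)) (x : Fin n → ℝ) =>
    (C n).indicator (fun x => ENNReal.ofReal (P n x * φ x)) (x ∘ σ)) _
    (fun σ _ => hf.comp (perm_mp n σ).measurable)]
  simp only [fun σ => (perm_mp n σ).lintegral_comp hf]
  simp

theorem FF (n : ℕ) (φ1 φ2 φ3 φ4 : (Fin n → ℝ) → ℝ)
    (m1 : Measurable φ1) (m2 : Measurable φ2) (m3 : Measurable φ3) (m4 : Measurable φ4)
    (s1 : ∀ x (σ : Equiv.Perm (Fin n)), φ1 (x ∘ σ) = φ1 x)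
    (s2 : ∀ x (σ : Equiv.Perm (Fin n)), φ2 (x ∘ σ) = φ2 x)
    (s3 : ∀ x (σ : Equiv.Perm (Fin n)), φ3 (x ∘ σ) = φ3 x)
    (s4 : ∀ x (σ : Equiv.Perm (Fin n)), φ4 (x ∘ σ) = φ4 x)
    (n1 : ∀ x ∈ O n, 0 ≤ φ1 x) (n2 : ∀ x ∈ O n, 0 ≤ φ2 x) (n3 : ∀ x ∈ O n, 0 ≤ φ3 x)
    (n4 : ∀ x ∈ O n, 0 ≤ φ4 x)
    (i1 : IntegrableOn (fun x => P n x * φ1 x) (O n)) (i2 : IntegrableOn (fun x => P n x * φ2 x) (O n))
    (i3 : IntegrableOn (fun x => P n x * φ3 x) (O n)) (i4 : IntegrableOn (fun x => P n x * φ4 x) (O n))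
    (h : ∀ x ∈ O n, ∀ y ∈ O n, φ1 x * φ2 y ≤ φ3 (x ⊔ y) * φ4 (x ⊓ y)) :
    (∫ x in O n, P n x * φ1 x) * (∫ x in O n, P n x * φ2 x)
      ≤ (∫ x in O n, P n x * φ3 x) * (∫ x in O n, P n x * φ4 x) := by
  have nn : ∀ φ : (Fin n → ℝ) → ℝ, (∀ x ∈ O n, 0 ≤ φ x) →
      0 ≤ᵐ[volume.restrict (O n)] fun x => P n x * φ x := fun φ hφ =>
    (ae_restrict_mem (O_open n).measurableSet).mono (fun x hx => mul_nonneg (P_nonneg n x) (hφ x hx))
  have hf : ∀ φ : (Fin n → ℝ) → ℝ, Measurable φ →
      Measurable ((C n).indicator (fun x => ENNReal.ofReal (P n x * φ x))) := fun φ hm =>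
    (((P_cont n).measurable.mul hm).ennreal_ofReal).indicator (C_meas n)
  have key := Pool.Agent.H28.FourFn.four_functions _ _ _ _ (hf φ1 m1) (hf φ2 m2) (hf φ3 m3) (hf φ4 m4) (by
    intro x y
    by_cases hx : x ∈ C n
    swap
    · simp [indicator_of_notMem hx]
    by_cases hy : y ∈ C n
    swap
    · simp [indicator_of_notMem hy]
    have c1 : x ⊔ y ∈ C n := ⟨mem_O.2 (fun j => lt_max_of_lt_left (mem_O.1 hx.1 j)),
      fun a b hab => max_lt_max (hx.2 hab) (hy.2 hab)⟩
    have c2 : x ⊓ y ∈ C n := ⟨mem_O.2 (fun j => lt_min (mem_O.1 hx.1 j) (mem_O.1 hy.1 j)),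
      fun a b hab => min_lt_min (hx.2 hab) (hy.2 hab)⟩
    rw [indicator_of_mem hx, indicator_of_mem hy, indicator_of_mem c1, indicator_of_mem c2,
      ← ENNReal.ofReal_mul (mul_nonneg (P_nonneg n _) (n1 x hx.1)),
      ← ENNReal.ofReal_mul (mul_nonneg (P_nonneg n _) (n3 _ c1.1))]
    apply ENNReal.ofReal_le_ofReal
    rw [mul_mul_mul_comm, mul_mul_mul_comm (P n (x ⊔ y))]
    exact mul_le_mul (P_mtp n x y hx.2 hy.2) (h x hx.1 y hy.1) (mul_nonneg (n1 x hx.1) (n2 y hy.1))
      (mul_nonneg (P_nonneg n _) (P_nonneg n _)))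
  have key2 : (∫⁻ x in O n, ENNReal.ofReal (P n x * φ1 x)) * (∫⁻ x in O n, ENNReal.ofReal (P n x * φ2 x))
      ≤ (∫⁻ x in O n, ENNReal.ofReal (P n x * φ3 x)) * (∫⁻ x in O n, ENNReal.ofReal (P n x * φ4 x)) := by
    rw [sym n φ1 m1 s1, sym n φ2 m2 s2, sym n φ3 m3 s3, sym n φ4 m4 s4, mul_mul_mul_comm,
      mul_mul_mul_comm _ (∫⁻ x, (C n).indicator (fun x => ENNReal.ofReal (P n x * φ3 x)) x)]
    exact mul_le_mul_right key _
  rw [← ofReal_integral_eq_lintegral_ofReal i1 (nn _ n1), ← ofReal_integral_eq_lintegral_ofReal i2 (nn _ n2),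
    ← ofReal_integral_eq_lintegral_ofReal i3 (nn _ n3), ← ofReal_integral_eq_lintegral_ofReal i4 (nn _ n4),
    ← ENNReal.ofReal_mul (integral_nonneg_of_ae (nn _ n1)),
    ← ENNReal.ofReal_mul (integral_nonneg_of_ae (nn _ n3))] at key2
  exact (ENNReal.ofReal_le_ofReal_iff (mul_nonneg (integral_nonneg_of_ae (nn _ n3))
    (integral_nonneg_of_ae (nn _ n4)))).1 key2

theorem pow_le_exp (m : ℕ) : ∃ K : ℝ, 0 ≤ K ∧ ∀ x : ℝ, 0 ≤ x → (1 + x) ^ m ≤ K * Real.exp (x / 2) := by
  refine ⟨(2 * (m + 1)) ^ m, by positivity, fun x hx => ?_⟩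
  have hm : (0 : ℝ) < 2 * (m + 1) := by positivity
  have h1 : 1 + x ≤ 2 * (m + 1) * Real.exp (x / (2 * (m + 1))) := by
    have := Real.add_one_le_exp (x / (2 * (m + 1)))
    have h2 : 2 * ((m : ℝ) + 1) * (x / (2 * (m + 1)) + 1) = x + 2 * (m + 1) := by field_simp
    have h3 : (0 : ℝ) ≤ m := Nat.cast_nonneg m
    nlinarith
  calc (1 + x) ^ m ≤ (2 * (m + 1) * Real.exp (x / (2 * (m + 1)))) ^ m :=
        pow_le_pow_left₀ (by linarith) h1 m
    _ = (2 * (m + 1)) ^ m * Real.exp (m * (x / (2 * (m + 1)))) := by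
        rw [mul_pow, Real.exp_nat_mul]
    _ ≤ _ := by
        gcongr
        rw [← mul_div_assoc, div_le_div_iff₀ hm two_pos]
        nlinarith

theorem int_one (m : ℕ) (t a : ℝ) (ht : 0 ≤ t) (ha : a = 1 / 2 ∨ a = -(1 / 2)) :
    IntegrableOn (fun x : ℝ => Real.exp (-x) * (1 + x) ^ m * (x + t) ^ a) (Set.Ioi 0) := by
  obtain ⟨K, hK0, hK⟩ := pow_le_exp (m + 1)
  have h1 := integrableOn_rpow_mul_exp_neg_mul_rpow (p := 1) (s := -(1 / 2)) (b := 1 / 2)
    (by norm_num) one_pos (by norm_num)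
  have h2 := integrableOn_rpow_mul_exp_neg_mul_rpow (p := 1) (s := 0) (b := 1 / 2)
    (by norm_num) one_pos (by norm_num)
  refine Integrable.mono' ((h1.const_mul K).add (h2.const_mul (K * (1 + t)))) (by fun_prop) ?_
  refine (ae_restrict_mem measurableSet_Ioi).mono (fun x hx => ?_)
  have hx : 0 < x := hx
  have h3 : (x + t) ^ a ≤ (1 + x) * (x ^ (-(1 / 2) : ℝ) + (1 + t)) := by
    have p1 : 0 ≤ x ^ (-(1 / 2) : ℝ) := by positivity
    rcases ha with rfl | rfl
    · have : (x + t) ^ (1 / 2 : ℝ) ≤ 1 + (x + t) := by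
        rw [← Real.sqrt_eq_rpow]
        apply Real.sqrt_le_iff.2 ⟨by positivity, by nlinarith⟩
      nlinarith [mul_nonneg hx.le p1, mul_nonneg hx.le ht]
    · have : (x + t) ^ (-(1 / 2) : ℝ) ≤ x ^ (-(1 / 2) : ℝ) :=
        Real.rpow_le_rpow_of_nonpos hx (by linarith) (by norm_num)
      nlinarith [mul_nonneg hx.le p1, mul_nonneg hx.le ht]
  rw [Real.norm_of_nonneg (by positivity)]
  simp only [Pi.add_apply, Real.rpow_one, Real.rpow_zero, one_mul]
  have e : Real.exp (-(1 / 2) * x) = Real.exp (-x) * Real.exp (x / 2) := by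
    rw [← Real.exp_add]; congr 1; ring
  have h4 := hK x hx.le
  calc Real.exp (-x) * (1 + x) ^ m * (x + t) ^ a
      ≤ Real.exp (-x) * (1 + x) ^ m * ((1 + x) * (x ^ (-(1 / 2) : ℝ) + (1 + t))) := by gcongr
    _ = Real.exp (-x) * (1 + x) ^ (m + 1) * (x ^ (-(1 / 2) : ℝ) + (1 + t)) := by ring
    _ ≤ Real.exp (-x) * (K * Real.exp (x / 2)) * (x ^ (-(1 / 2) : ℝ) + (1 + t)) := by gcongr
    _ = _ := by rw [e]; ring

theorem int_P (n : ℕ) (t a : ℝ) (ht : 0 ≤ t) (ha : a = 1 / 2 ∨ a = -(1 / 2)) :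
    IntegrableOn (fun x : Fin n → ℝ => P n x * ∏ j, (x j + t) ^ a) (O n) := by
  have h1 : Integrable (fun x : Fin n → ℝ => ∏ j, (Real.exp (-x j) * (1 + x j) ^ (2 * n * n) * (x j + t) ^ a))
      (Measure.pi (fun _ => volume.restrict (Set.Ioi (0 : ℝ)))) :=
    Integrable.fintype_prod (f := fun _ x => Real.exp (-x) * (1 + x) ^ (2 * n * n) * (x + t) ^ a)
      (fun _ => int_one _ t a ht ha)
  rw [← Measure.restrict_pi_pi] at h1
  refine Integrable.mono' h1 ?_ ?_
  · have := (P_cont n).measurable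
    fun_prop
  refine (ae_restrict_mem (O_open n).measurableSet).mono (fun x hx => ?_)
  have hx := mem_O.1 hx
  have hp : 0 ≤ ∏ j, (x j + t) ^ a := Finset.prod_nonneg (fun j _ => by have := hx j; positivity)
  rw [Real.norm_of_nonneg (mul_nonneg (P_nonneg n x) hp), Finset.prod_mul_distrib,
    Finset.prod_mul_distrib, ← Real.exp_sum, Finset.sum_neg_distrib, Finset.prod_pow]
  refine mul_le_mul_of_nonneg_right (mul_le_mul_of_nonneg_left ?_ (Real.exp_pos _).le) hp
  set Q := ∏ j, (1 + x j) with hQ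
  have hQj : ∀ j, 1 + x j ≤ Q := by
    intro j
    rw [hQ, ← Finset.mul_prod_erase _ _ (Finset.mem_univ j)]
    refine le_mul_of_one_le_right (by linarith [hx j]) ?_
    exact Finset.one_le_prod (fun i _ => by linarith [hx i]) 
  have hQ1 : 1 ≤ Q := Finset.one_le_prod (fun i _ => by linarith [hx i])
  calc ∏ k, ∏ j ∈ Finset.Ioi k, (x j - x k) ^ 2 ≤ ∏ _k : Fin n, Q ^ (2 * n) := by
        refine Finset.prod_le_prod (fun k _ => by positivity) (fun k _ => ?_)
        calc ∏ j ∈ Finset.Ioi k, (x j - x k) ^ 2 ≤ ∏ _j ∈ Finset.Ioi k, Q ^ 2 := by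
              refine Finset.prod_le_prod (fun j _ => by positivity) (fun j _ => ?_)
              apply sq_le_sq'
              · linarith [hx j, hQj k]
              · linarith [hx k, hQj j]
          _ ≤ Q ^ (2 * n) := by
              rw [Finset.prod_const, ← pow_mul]
              refine pow_le_pow_right₀ hQ1 (Nat.mul_le_mul_left _ ?_)
              simpa using Finset.card_le_univ (Finset.Ioi k)
    _ = Q ^ (2 * n * n) := by simp [← pow_mul]

theorem psi_mono {ι : Type} (s : Finset ι) (x y : ι → ℝ) (t : ℝ) (ht : 0 ≤ t) (hx : ∀ j, 0 ≤ x j)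
    (hxy : ∀ j, x j ≤ y j) :
    t ^ s.card * ∑ j ∈ s, (y j - x j) ≤ t * (∏ j ∈ s, (y j + t) - ∏ j ∈ s, (x j + t)) := by
  classical
  induction s using Finset.induction_on with
  | empty => simp
  | insert i s hi ih =>
    rw [Finset.card_insert_of_notMem hi, Finset.sum_insert hi, Finset.prod_insert hi,
      Finset.prod_insert hi]
    have h1 : t ^ s.card ≤ ∏ j ∈ s, (x j + t) := by
      rw [← Finset.prod_const]
      exact Finset.prod_le_prod (fun _ _ => ht) (fun j _ => by linarith [hx j])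
    have h2 : ∏ j ∈ s, (x j + t) ≤ ∏ j ∈ s, (y j + t) :=
      Finset.prod_le_prod (fun j _ => by linarith [hx j]) (fun j _ => by linarith [hxy j])
    have h3 := hxy i
    have h4 := hx i
    have a1 := mul_le_mul_of_nonneg_left ih ht
    have a2 := mul_le_mul_of_nonneg_left h1 (mul_nonneg ht (sub_nonneg.2 h3))
    have a3 := mul_nonneg (mul_nonneg ht (h4.trans h3)) (sub_nonneg.2 h2)
    rw [pow_succ]
    nlinarith

theorem result (n : ℕ) (hn : 2 ≤ n) :
    AntitoneOn (fun t => F n t * G n t) (Set.Ici 0) ∧ ∀ t, 0 < t → H n t < 0 := by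
  have sp : ∀ (t a : ℝ) (x : Fin n → ℝ) (σ : Equiv.Perm (Fin n)),
      ∏ j, ((x ∘ σ) j + t) ^ a = ∏ j, (x j + t) ^ a := fun t a x σ =>
    Equiv.prod_comp σ (fun j => (x j + t) ^ a)
  have np : ∀ (t a : ℝ), 0 ≤ t → ∀ x ∈ O n, 0 < ∏ j, (x j + t) ^ a := fun t a ht x hx =>
    Finset.prod_pos (fun j _ => by have := mem_O.1 hx j; positivity)
  have mp : ∀ (t a : ℝ), Measurable (fun x : Fin n → ℝ => ∏ j, (x j + t) ^ a) := fun t a => by fun_prop
  constructor
  · intro t1 h1 t2 h2 h12
    have h1 : (0 : ℝ) ≤ t1 := h1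
    have h2 : (0 : ℝ) ≤ t2 := h2
    simp only [F, G, O_ae]
    rw [mul_comm (∫ x in O n, P n x * ∏ j, (x j + t1) ^ (-(1 / 2) : ℝ))]
    refine FF n _ _ _ _ (mp _ _) (mp _ _) (mp _ _) (mp _ _) (sp _ _) (sp _ _) (sp _ _) (sp _ _)
      (fun x hx => (np _ _ h2 x hx).le) (fun x hx => (np _ _ h2 x hx).le)
      (fun x hx => (np _ _ h1 x hx).le) (fun x hx => (np _ _ h1 x hx).le)
      (int_P n _ _ h2 (Or.inr rfl)) (int_P n _ _ h2 (Or.inl rfl)) (int_P n _ _ h1 (Or.inl rfl))
      (int_P n _ _ h1 (Or.inr rfl)) (fun x hx y hy => ?_)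
    rw [← Finset.prod_mul_distrib, ← Finset.prod_mul_distrib]
    refine Finset.prod_le_prod (fun j _ => ?_) (fun j _ => ?_)
    · have := mem_O.1 hx j; have := mem_O.1 hy j; positivity
    have a := mem_O.1 hx j
    have b := mem_O.1 hy j
    simp only [Pi.sup_apply, Pi.inf_apply]
    have c : 0 < min (x j) (y j) := lt_min a b
    have d : 0 < max (x j) (y j) := lt_max_of_lt_left a
    rw [Real.rpow_neg (by positivity), Real.rpow_neg (by positivity), mul_comm, ← div_eq_mul_inv,
      ← div_eq_mul_inv, ← Real.div_rpow (by positivity) (by positivity),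
      ← Real.div_rpow (by positivity) (by positivity)]
    apply Real.rpow_le_rpow (by positivity) _ (by norm_num)
    rw [div_le_div_iff₀ (by positivity) (by positivity)]
    rcases le_total (x j) (y j) with p | p <;>
      simp only [max_eq_left, max_eq_right, min_eq_left, min_eq_right, p] <;> nlinarith
  intro t ht
  let w : (Fin n → ℝ) → ℝ := fun x => ∏ j, (x j + t) ^ (-(1 / 2) : ℝ)
  let v : (Fin n → ℝ) → ℝ := fun x => ∏ j, (x j + t) ^ (1 / 2 : ℝ)
  let φ : (Fin n → ℝ) → ℝ := fun x => ∑ j, 1 / (x j + t)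
  have mφ : Measurable φ := by simp only [φ]; fun_prop
  have sφ : ∀ x (σ : Equiv.Perm (Fin n)), φ (x ∘ σ) = φ x := fun x σ =>
    Equiv.sum_comp σ (fun j => 1 / (x j + t))
  have nφ : ∀ x ∈ O n, 0 ≤ φ x := fun x hx =>
    Finset.sum_nonneg (fun j _ => by have := mem_O.1 hx j; positivity)
  have bφ : ∀ x ∈ O n, φ x ≤ n / t := by
    intro x hx
    calc φ x ≤ ∑ _j : Fin n, 1 / t := Finset.sum_le_sum (fun j _ =>
          one_div_le_one_div_of_le ht (by linarith [mem_O.1 hx j]))
      _ = n / t := by simp [div_eq_mul_inv]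
  have aφ : ∀ x ∈ O n, ∀ y, x ≤ y → φ y ≤ φ x := fun x hx y hxy => Finset.sum_le_sum (fun j _ =>
    one_div_le_one_div_of_le (by linarith [mem_O.1 hx j]) (by linarith [hxy j]))
  have ib : ∀ u : (Fin n → ℝ) → ℝ, IntegrableOn (fun x => P n x * u x) (O n) →
      IntegrableOn (fun x => P n x * (u x * φ x)) (O n) := by
    intro u hu
    have := Integrable.mul_bdd (c := n / t) hu mφ.aestronglyMeasurable
      ((ae_restrict_mem (O_open n).measurableSet).mono (fun x hx => by
        rw [Real.norm_of_nonneg (nφ x hx)]; exact bφ x hx))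
    exact this.congr (Filter.Eventually.of_forall (fun x => mul_assoc _ _ _))
  have iw : IntegrableOn (fun x => P n x * w x) (O n) := int_P n _ _ ht.le (Or.inr rfl)
  have iv : IntegrableOn (fun x => P n x * v x) (O n) := int_P n _ _ ht.le (Or.inl rfl)
  have iwφ := ib w iw
  have ivφ := ib v iv
  have iwφφ := ib _ iwφ
  have hvw : ∀ x ∈ O n, v x = w x * ∏ j, (x j + t) := by
    intro x hx
    simp only [v, w, ← Finset.prod_mul_distrib]
    refine Finset.prod_congr rfl (fun j _ => ?_)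
    rw [← Real.rpow_add_one (by have := mem_O.1 hx j; positivity)]; norm_num
  set A := ∫ x in O n, P n x * (v x * φ x) with hA
  set B := ∫ x in O n, P n x * (w x * φ x) with hB
  set D := ∫ x in O n, P n x * (w x * φ x * φ x) with hD
  set F' := ∫ x in O n, P n x * w x with hF'
  set G' := ∫ x in O n, P n x * v x with hG'
  have hH : H n t = A * F' - G' * B := by
    simp only [H, O_ae]
    have e1 : ∀ x ∈ O n, ∫ y in O n, P n x * P n y * (∑ j, (1 / (x j + t) - 1 / (y j + t))) *
        ∏ j, ((x j + t) / (y j + t)) ^ (1 / 2 : ℝ)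
        = P n x * (v x * φ x) * F' - P n x * v x * B := by
      intro x hx
      rw [hF', hB, ← integral_const_mul, ← integral_const_mul,
        ← integral_sub (iw.const_mul _) (iwφ.const_mul _)]
      refine setIntegral_congr_fun (O_open n).measurableSet (fun y hy => ?_)
      have e2 : ∏ j, ((x j + t) / (y j + t)) ^ (1 / 2 : ℝ) = v x * w y := by
        simp only [v, w, ← Finset.prod_mul_distrib]
        refine Finset.prod_congr rfl (fun j _ => ?_)
        have := mem_O.1 hx j
        have := mem_O.1 hy j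
        rw [Real.div_rpow (by positivity) (by positivity), Real.rpow_neg (by positivity),
          div_eq_mul_inv]
      simp only [e2, Finset.sum_sub_distrib, φ]
      ring
    rw [setIntegral_congr_fun (O_open n).measurableSet e1,
      integral_sub (ivφ.mul_const _) (iv.mul_const _), integral_mul_const, integral_mul_const]
  set c : ℝ := t ^ (n + 1) with hc
  have hc0 : 0 < c := by positivity
  have mono : ∀ x ∈ O n, ∀ y, x ≤ y → ∏ j, (x j + t) + c * φ x ≤ ∏ j, (y j + t) + c * φ y := by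
    intro x hx y hxy
    have h1 := psi_mono Finset.univ x y t ht.le (fun j => (mem_O.1 hx j).le) hxy
    rw [Finset.card_univ, Fintype.card_fin] at h1
    have h2 : t ^ 2 * (φ x - φ y) ≤ ∑ j, (y j - x j) := by
      simp only [φ, ← Finset.sum_sub_distrib, Finset.mul_sum]
      refine Finset.sum_le_sum (fun j _ => ?_)
      have a := mem_O.1 hx j
      have b : x j ≤ y j := hxy j
      have e : 1 / (x j + t) - 1 / (y j + t) = (y j - x j) / ((x j + t) * (y j + t)) := by
        have : y j + t ≠ 0 := by linarith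
        field_simp; ring
      rw [e, ← mul_div_assoc, div_le_iff₀ (by have : 0 < y j + t := by linarith
                                              positivity)]
      have : t ^ 2 ≤ (x j + t) * (y j + t) := by nlinarith
      nlinarith [mul_le_mul_of_nonneg_left this (sub_nonneg.2 b)]
    have h3 := mul_le_mul_of_nonneg_left h2 (pow_pos ht n).le
    have h4 : t * (c * (φ x - φ y)) ≤ t * (∏ j, (y j + t) - ∏ j, (x j + t)) := by
      refine le_trans (le_of_eq ?_) (h3.trans h1)
      rw [hc]; ring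
    have := le_of_mul_le_mul_left h4 ht
    linarith
  have mw : Measurable w := mp _ _
  have mv : Measurable v := mp _ _
  have nw : ∀ x ∈ O n, 0 < w x := np _ _ ht.le
  have nv : ∀ x ∈ O n, 0 < v x := np _ _ ht.le
  have key := FF n (fun x => v x * φ x + c * (w x * φ x * φ x)) w (fun x => v x + c * (w x * φ x))
    (fun x => w x * φ x) (by fun_prop) mw (by fun_prop) (by fun_prop)
    (fun x σ => by simp only [v, w, sp, sφ]) (sp _ _) (fun x σ => by simp only [v, w, sp, sφ])
    (fun x σ => by simp only [w, sp, sφ])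
    (fun x hx => by have := nφ x hx; have := nw x hx; have := nv x hx; positivity)
    (fun x hx => (nw x hx).le)
    (fun x hx => by have := nφ x hx; have := nw x hx; have := nv x hx; positivity)
    (fun x hx => by have := nφ x hx; have := nw x hx; positivity)
    ((ivφ.add (iwφφ.const_mul c)).congr (Filter.Eventually.of_forall (fun x => by simp; ring))) iw
    ((iv.add (iwφ.const_mul c)).congr (Filter.Eventually.of_forall (fun x => by simp; ring))) iwφ
    (by
      intro x hx y hy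
      have c1 : x ⊔ y ∈ O n := mem_O.2 (fun j => lt_max_of_lt_left (mem_O.1 hx j))
      have c2 : x ⊓ y ∈ O n := mem_O.2 (fun j => lt_min (mem_O.1 hx j) (mem_O.1 hy j))
      have e : w x * w y = w (x ⊔ y) * w (x ⊓ y) := by
        simp only [w, ← Finset.prod_mul_distrib]
        refine Finset.prod_congr rfl (fun j _ => ?_)
        simp only [Pi.sup_apply, Pi.inf_apply]
        rcases le_total (x j) (y j) with p | p
        · rw [max_eq_right p, min_eq_left p, mul_comm]
        · rw [max_eq_left p, min_eq_right p]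
      have m1 := mono x hx (x ⊔ y) le_sup_left
      have m2 := aφ _ c2 x inf_le_left
      have p1 : 0 ≤ ∏ j, (x j + t) + c * φ x :=
        add_nonneg (Finset.prod_nonneg (fun j _ => by linarith [mem_O.1 hx j]))
          (mul_nonneg hc0.le (nφ x hx))
      rw [hvw x hx, hvw _ c1]
      calc (w x * (∏ j, (x j + t)) * φ x + c * (w x * φ x * φ x)) * w y
          = (w x * w y) * ((∏ j, (x j + t) + c * φ x) * φ x) := by ring
        _ ≤ (w x * w y) * ((∏ j, ((x ⊔ y) j + t) + c * φ (x ⊔ y)) * φ (x ⊓ y)) :=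
            mul_le_mul_of_nonneg_left (mul_le_mul m1 m2 (nφ x hx) (p1.trans m1))
              (mul_pos (nw x hx) (nw y hy)).le
        _ = _ := by rw [e]; ring)
  have k1 : ∫ x in O n, P n x * (v x * φ x + c * (w x * φ x * φ x)) = A + c * D := by
    rw [hA, hD, ← integral_const_mul, ← integral_add ivφ (iwφφ.const_mul c)]
    exact integral_congr_ae (Filter.Eventually.of_forall (fun x => by simp only; ring))
  have k2 : ∫ x in O n, P n x * (v x + c * (w x * φ x)) = G' + c * B := by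
    rw [hG', hB, ← integral_const_mul, ← integral_add iv (iwφ.const_mul c)]
    exact integral_congr_ae (Filter.Eventually.of_forall (fun x => by simp only; ring))
  rw [k1, k2] at key
  have cφ : ContinuousOn φ (O n) := by
    refine continuousOn_finset_sum _ (fun j _ => ContinuousOn.div continuousOn_const (by fun_prop) ?_)
    intro x hx; linarith [mem_O.1 hx j]
  have hpos : ∀ β : ℝ, 0 < D - 2 * β * B + β ^ 2 * F' := by
    intro β
    have i0 : IntegrableOn (fun x => P n x * (w x * φ x * φ x) - 2 * β * (P n x * (w x * φ x))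
        + β ^ 2 * (P n x * w x)) (O n) := (iwφφ.sub (iwφ.const_mul _)).add (iw.const_mul _)
    have e0 : ∀ x, P n x * (w x * φ x * φ x) - 2 * β * (P n x * (w x * φ x)) + β ^ 2 * (P n x * w x)
        = P n x * w x * (φ x - β) ^ 2 := fun x => by ring
    rw [hD, hB, hF', ← integral_const_mul, ← integral_const_mul,
      ← integral_sub iwφφ (iwφ.const_mul _), ← integral_add (f := fun x => P n x * (w x * φ x * φ x) - 2 * β * (P n x * (w x * φ x)))
        (iwφφ.sub (iwφ.const_mul _)) (iw.const_mul _)]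
    simp only [Pi.sub_apply, e0] at i0 ⊢
    rw [setIntegral_pos_iff_support_of_nonneg_ae ((ae_restrict_mem (O_open n).measurableSet).mono
      (fun x hx => by have := nw x hx; have := P_nonneg n x; simp only [Pi.zero_apply]; positivity)) i0]
    have hU : IsOpen ((O n ∩ φ ⁻¹' {β}ᶜ) ∩ P n ⁻¹' {0}ᶜ) :=
      (cφ.isOpen_inter_preimage (O_open n) isOpen_compl_singleton).inter
        (isOpen_compl_singleton.preimage (P_cont n))
    have hpt : ∀ s : ℝ, 0 < s → (fun j : Fin n => (j : ℝ) + s) ∈ O n ∧ P n (fun j : Fin n => (j : ℝ) + s) ≠ 0 := by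
      intro s hs
      refine ⟨mem_O.2 (fun j => by positivity), (P_ne_iff n _).2 (fun a b hab => ?_)⟩
      have : ((a : ℕ) : ℝ) = (b : ℕ) := by simpa using hab
      exact Fin.ext (by exact_mod_cast this)
    have hlt : φ (fun j : Fin n => (j : ℝ) + 2) < φ (fun j : Fin n => (j : ℝ) + 1) := by
      haveI : Nonempty (Fin n) := ⟨⟨0, by omega⟩⟩
      exact Finset.sum_lt_sum_of_nonempty Finset.univ_nonempty (fun j _ =>
        one_div_lt_one_div_of_lt (by positivity) (by linarith))
    have hne : ((O n ∩ φ ⁻¹' {β}ᶜ) ∩ P n ⁻¹' {0}ᶜ).Nonempty := by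
      by_cases h : φ (fun j : Fin n => (j : ℝ) + 1) = β
      · exact ⟨_, ⟨(hpt 2 two_pos).1, fun h2 => by rw [mem_singleton_iff] at h2; linarith⟩,
          (hpt 2 two_pos).2⟩
      · exact ⟨_, ⟨(hpt 1 one_pos).1, h⟩, (hpt 1 one_pos).2⟩
    refine (hU.measure_pos volume hne).trans_le (measure_mono (fun x hx => ⟨?_, hx.1.1⟩))
    exact mul_ne_zero (mul_ne_zero hx.2 (nw x hx.1.1).ne') (pow_ne_zero _ (sub_ne_zero.2 hx.1.2))
  have hF0 : 0 ≤ F' := integral_nonneg_of_ae ((ae_restrict_mem (O_open n).measurableSet).mono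
    (fun x hx => mul_nonneg (P_nonneg n x) (nw x hx).le))
  have hdisc : B ^ 2 < D * F' := by
    rcases hF0.eq_or_lt with h | h
    · exfalso
      have hz : (fun x => P n x * w x) =ᵐ[volume.restrict (O n)] 0 :=
        (integral_eq_zero_iff_of_nonneg_ae ((ae_restrict_mem (O_open n).measurableSet).mono
          (fun x hx => mul_nonneg (P_nonneg n x) (nw x hx).le)) iw).1 h.symm
      have hD0 : D = 0 := integral_eq_zero_of_ae (hz.mono (fun x hx => by
        simp only [Pi.zero_apply] at hx ⊢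
        rw [← mul_assoc, ← mul_assoc, hx]; simp))
      have := hpos 0
      rw [hD0] at this
      simp at this
    · have := mul_pos (hpos (B / F')) h
      have e : (D - 2 * (B / F') * B + (B / F') ^ 2 * F') * F' = D * F' - B ^ 2 := by
        field_simp; ring
      linarith
  rw [hH]
  nlinarith

end Pool.Agent.Results.MP_58c014_an.Laguerre
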